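import Pool.Agent.H132F.FinalOdd
import Pool.Agent.H132F.Glue4
import Pool.Agent.H132F.UBase4
import Pool.Agent.H132F.UBottom
import Pool.Agent.H132F.UComp2
import Pool.Agent.H132F.UCount1
import Pool.Agent.H132F.UCount2
import Pool.Agent.H132F.UCount3a
import Pool.Agent.H132F.UCount3b
import Pool.Agent.H132F.UCount3c
import Pool.Agent.H132F.UGraded4
import Pool.Agent.H132F.UGrow
import Pool.Agent.H132F.UPathC
import Pool.Agent.H132F.UStep4

set_option autoImplicit false

open Pool.Agent.H132R3.BP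

namespace Pool.Agent.Results.MP_fc3ed9_co.OrderOfMagnitude

/-- For all `d ≥ 2` and `3 ≤ r ≤ 2 d - 1` the maximum percolation time `M_r^d(n)` of
`r`-neighbour bootstrap percolation on the grid `[n]^d` has order of magnitude `n^d`. -/
theorem result (d r : ℕ) (hd : 2 ≤ d) (hr : 3 ≤ r) (hrd : r ≤ 2 * d - 1) :
    (fun n : ℕ => (maxTime r d n : ℝ)) =Θ[Filter.atTop] fun n : ℕ => (n : ℝ) ^ d := by
  rcases Nat.even_or_odd r with hev | hodd
  · obtain ⟨m, rfl⟩ : ∃ m, d = m + 1 := ⟨d - 1, by omega⟩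
    have h4 : 4 ≤ r := by
      rcases hev with ⟨s, hs⟩
      omega
    have hr2 : r ≤ 2 * m := by
      rcases hev with ⟨s, hs⟩
      omega
    exact theta_of_pr tTIso tTIso3 (even_pr tTFold tTDense
      (lead4_all tUComp2 tTThin2 tUBase4 tUStep4) tUGraded4 (tUCount1 tTArith1) tUCount2
      tUCount3a tUCount3b tUCount3c (tUPathC tTArith2) tUBottom tUGrow tTStrip tTIso tTIso2
      tTIso3 m r h4 hr2 hev)
  · exact theta_odd d r hd hr hrd (Or.inl hodd)

end Pool.Agent.Results.MP_fc3ed9_co.OrderOfMagnitude
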