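import Pool.Agent.H500R3.Boot.Edge

/-!
`r`-neighbour bootstrap percolation on the grid `[n]^d`: the maximum percolation time is at most
`(d / r) n^d` for every `r`, and it has order `n^d` when `r = 2d - 2`, for every `d ≥ 3`.
-/

namespace Pool.Agent.Results.MP_fc3ed9_co.OrderSecondThreshold

variable {d : ℕ}

/-- The grid `[n]^d`. -/
noncomputable def grid (d n : ℕ) : Finset (Fin d → ℤ) :=
  Fintype.piFinset (fun _ => Finset.Icc 1 (n : ℤ))

/-- The `2d` points of `ℤ^d` which differ from `v` by `1` in exactly one coordinate. -/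
def nbr (v : Fin d → ℤ) : Finset (Fin d → ℤ) :=
  Finset.univ.image (fun p : Fin d × Bool =>
    Function.update v p.1 (v p.1 + (if p.2 then 1 else -1)))

/-- One step of `r`-neighbour bootstrap percolation on `[n]^d`: a vertex of the grid becomes
infected when at least `r` of its neighbours are infected. -/
noncomputable def step (r n : ℕ) (A : Finset (Fin d → ℤ)) : Finset (Fin d → ℤ) :=
  A ∪ (grid d n).filter (fun v => r ≤ (nbr v ∩ A).card)

/-- `t` is the percolation time of the percolating set `A`. -/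
def IsTime (r n : ℕ) (A : Finset (Fin d → ℤ)) (t : ℕ) : Prop :=
  (step r n)^[t] A = grid d n ∧ ∀ s < t, (step r n)^[s] A ≠ grid d n

/-- The maximum percolation time. -/
noncomputable def M (d r n : ℕ) : ℕ :=
  sSup {t | ∃ A : Finset (Fin d → ℤ), A ⊆ grid d n ∧ IsTime r n A t}

lemma M_eq (d r n : ℕ) : M d r n = H500G.M d r n := rfl

/-- **Theorem.** (1) For every `d` and every `r ≥ 1` the maximum percolation time is attained and
is at most `(d / r) n^d`. (2) For `d ≥ 3`, `r = 2d - 2` and `n ≥ 5` it is at least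
`⌊(n-1)/2⌋ (2 (2 ⌊(n-1)/4⌋)^(d-1) + 2)`. -/
theorem result : (∀ d r n : ℕ, 1 ≤ r →
      IsGreatest {t | ∃ A : Finset (Fin d → ℤ), A ⊆ grid d n ∧ IsTime r n A t} (M d r n) ∧
      r * M d r n ≤ d * n ^ d) ∧
    (∀ d n : ℕ, 3 ≤ d → 5 ≤ n →
      ((n - 1) / 2) * (2 * (2 * ((n - 1) / 4)) ^ (d - 1) + 2) ≤ M d (2 * d - 2) n) := by
  refine ⟨fun d r n hr => ⟨⟨?_, fun t ht => ?_⟩, H500G.upper_all hr d n⟩, fun d n hd hn => ?_⟩
  · exact Nat.sSup_mem (H500G.times_ne _ _ _) (H500G.times_bdd' hr d n)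
  · exact le_csSup (H500G.times_bdd' hr d n) ht
  · exact H500G.bounds2 hd n hn

end Pool.Agent.Results.MP_fc3ed9_co.OrderSecondThreshold
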